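import Mathlib

set_option autoImplicit false

namespace Pool.Agent.Results.MP_3ac9ea_co.Stabilizes

open Finset

/-- Restricted growth functions: positive letters, first letter `1`, and every later letter is at
most one more than some earlier letter, i.e. than the maximum of the earlier letters. -/
def IsRGF {n : ℕ} (w : Fin n → ℕ) : Prop :=
  (∀ i, 1 ≤ w i) ∧ (∀ i : Fin n, (i : ℕ) = 0 → w i = 1) ∧
    ∀ i : Fin n, 0 < (i : ℕ) → ∃ j, j < i ∧ w i ≤ 1 + w j

/-- The word avoids `1221`. -/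
def Avoids1221 {n : ℕ} (w : Fin n → ℕ) : Prop :=
  ∀ a b c d : Fin n, a < b → b < c → c < d → ¬ (w a = w d ∧ w d < w b ∧ w b = w c)

/-- `rb w_j`: the number of distinct letters larger than `w_j` to the right of position `j`. -/
def rbAt {n : ℕ} (w : Fin n → ℕ) (j : Fin n) : ℕ :=
  ((univ.filter (fun i => j < i ∧ w j < w i)).image w).card

/-- The statistic `rb`. -/
def rb {n : ℕ} (w : Fin n → ℕ) : ℕ := ∑ j, rbAt w j

/-- The set `R_n(1221)`. -/
def R (n : ℕ) : Set (Fin n → ℕ) := {w | IsRGF w ∧ Avoids1221 w}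

theorem exists_letter {n : ℕ} {w : Fin n → ℕ} (h : IsRGF w) :
    ∀ (i : Fin n) (x : ℕ), 1 ≤ x → x ≤ w i → ∃ j, j ≤ i ∧ w j = x := by
  intro i
  induction i using WellFoundedLT.induction with
  | ind i ih =>
    intro x hx hxi
    rcases Nat.eq_or_lt_of_le hxi with h1 | h1
    · exact ⟨i, le_rfl, h1.symm⟩
    · by_cases hi : (i : ℕ) = 0
      · have := h.2.1 i hi
        omega
      · obtain ⟨j, hj, hw⟩ := h.2.2 i (by omega)
        obtain ⟨l, hl, hl'⟩ := ih j hj x hx (by omega)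
        exact ⟨l, hl.trans hj.le, hl'⟩

theorem le_succ {n : ℕ} {w : Fin n → ℕ} (h : IsRGF w) : ∀ i : Fin n, w i ≤ i + 1 := by
  intro i
  induction i using WellFoundedLT.induction with
  | ind i ih =>
    by_cases hi : (i : ℕ) = 0
    · have := h.2.1 i hi
      omega
    · obtain ⟨j, hj, hw⟩ := h.2.2 i (by omega)
      have h1 := ih j hj
      have h2 : (j : ℕ) < i := hj
      omega

theorem R_finite (n : ℕ) : (R n).Finite := by
  apply (Set.finite_Iic (fun _ : Fin n => n)).subset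
  rintro w ⟨h, _⟩ i
  have h1 := le_succ h i
  have h2 := i.is_lt
  show w i ≤ n
  omega

/-- The polynomial `RB_n(1221; q)`. -/
noncomputable def RB (n : ℕ) : Polynomial ℕ :=
  ∑ w ∈ (R_finite n).toFinset, Polynomial.X ^ rb w

theorem coeff_RB (n k : ℕ) :
    (RB n).coeff k = ((R_finite n).toFinset.filter (fun w => rb w = k)).card := by
  unfold RB
  rw [Polynomial.finsetSum_coeff, card_filter]
  apply sum_congr rfl
  intro w _
  rw [Polynomial.coeff_X_pow]
  by_cases h : rb w = k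
  · rw [if_pos h, if_pos h.symm]
  · rw [if_neg h, if_neg (fun h' => h h'.symm)]

/-- Repeat the last letter. -/
def dup {m : ℕ} (w : Fin (m + 1) → ℕ) (i : Fin (m + 2)) : ℕ :=
  w ⟨min (i : ℕ) m, by omega⟩

theorem dup_castSucc {m : ℕ} (w : Fin (m + 1) → ℕ) (i : Fin (m + 1)) : dup w i.castSucc = w i := by
  unfold dup
  congr 1
  apply Fin.ext
  have := i.is_lt
  simp only [Fin.val_castSucc]
  omega

theorem dup_last {m : ℕ} (w : Fin (m + 1) → ℕ) : dup w (Fin.last (m + 1)) = w (Fin.last m) := by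
  unfold dup
  congr 1
  apply Fin.ext
  simp

theorem dup_eq {m : ℕ} (w : Fin (m + 1) → ℕ) (i : Fin (m + 2)) :
    ∃ j : Fin (m + 1), (j : ℕ) = min (i : ℕ) m ∧ dup w i = w j := ⟨⟨min (i : ℕ) m, by omega⟩, rfl, rfl⟩

theorem rbAt_dup {m : ℕ} (w : Fin (m + 1) → ℕ) (j : Fin (m + 1)) :
    rbAt (dup w) j.castSucc = rbAt w j := by
  unfold rbAt
  congr 1
  ext x
  simp only [mem_image, mem_filter, mem_univ, true_and]
  rw [dup_castSucc]
  constructor
  · rintro ⟨i, ⟨h1, h2⟩, rfl⟩
    obtain ⟨i', hi', h3⟩ := dup_eq w i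
    rw [h3] at h2 ⊢
    refine ⟨i', ⟨?_, h2⟩, rfl⟩
    have h4 : (j : ℕ) < i := h1
    have h5 : (i' : ℕ) ≠ j := fun h => by
      rw [Fin.ext h] at h2
      exact lt_irrefl _ h2
    have h6 := j.is_lt
    show (j : ℕ) < i'
    omega
  · rintro ⟨i, ⟨h1, h2⟩, rfl⟩
    exact ⟨i.castSucc, ⟨h1, by rw [dup_castSucc]; exact h2⟩, dup_castSucc w i⟩

theorem rb_dup {m : ℕ} (w : Fin (m + 1) → ℕ) : rb (dup w) = rb w := by
  unfold rb
  rw [Fin.sum_univ_castSucc]
  have h1 : rbAt (dup w) (Fin.last (m + 1)) = 0 := by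
    unfold rbAt
    rw [card_eq_zero, image_eq_empty]
    ext i
    simp only [mem_filter, mem_univ, true_and, notMem_empty, iff_false]
    rintro ⟨h, _⟩
    exact absurd h (not_lt.mpr (Fin.le_last i))
  rw [h1, Nat.add_zero]
  exact sum_congr rfl (fun j _ => rbAt_dup w j)

theorem isRGF_dup {m : ℕ} (w : Fin (m + 1) → ℕ) : IsRGF (dup w) ↔ IsRGF w := by
  constructor
  · rintro ⟨h1, h2, h3⟩
    refine ⟨fun i => ?_, fun i hi => ?_, fun i hi => ?_⟩
    · have := h1 i.castSucc
      rwa [dup_castSucc] at this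
    · have := h2 i.castSucc hi
      rwa [dup_castSucc] at this
    · obtain ⟨j, hj, h⟩ := h3 i.castSucc hi
      rw [dup_castSucc] at h
      have h4 : (j : ℕ) < i := hj
      have h5 := i.is_lt
      obtain ⟨j', hj', h6⟩ := dup_eq w j
      rw [h6] at h
      refine ⟨j', ?_, h⟩
      show (j' : ℕ) < i
      omega
  · rintro ⟨h1, h2, h3⟩
    refine ⟨fun i => ?_, fun i hi => ?_, fun i hi => ?_⟩
    · exact h1 _
    · obtain ⟨i', hi', h⟩ := dup_eq w i
      rw [h]
      exact h2 i' (by omega)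
    · obtain ⟨i', hi', h⟩ := dup_eq w i
      rw [h]
      by_cases h0 : (i' : ℕ) = 0
      · refine ⟨⟨0, by omega⟩, hi, ?_⟩
        rw [h2 i' h0]
        omega
      · obtain ⟨j, hj, h4⟩ := h3 i' (by omega)
        have h5 : (j : ℕ) < i' := hj
        refine ⟨j.castSucc, ?_, ?_⟩
        · show (j : ℕ) < i
          omega
        · rw [dup_castSucc]
          exact h4

theorem avoids_dup {m : ℕ} (w : Fin (m + 1) → ℕ) : Avoids1221 (dup w) ↔ Avoids1221 w := by
  constructor
  · intro h a b c d hab hbc hcd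
    have := h a.castSucc b.castSucc c.castSucc d.castSucc hab hbc hcd
    simpa only [dup_castSucc] using this
  · intro h a b c d hab hbc hcd ⟨h1, h2, h3⟩
    obtain ⟨a', ha', e1⟩ := dup_eq w a
    obtain ⟨b', hb', e2⟩ := dup_eq w b
    obtain ⟨c', hc', e3⟩ := dup_eq w c
    obtain ⟨d', hd', e4⟩ := dup_eq w d
    rw [e1, e4] at h1
    rw [e4, e2] at h2
    rw [e2, e3] at h3
    have g1 : (a : ℕ) < b := hab
    have g2 : (b : ℕ) < c := hbc
    have g3 : (c : ℕ) < d := hcd
    have g4 := d.is_lt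
    have g5 : (c' : ℕ) ≠ d' := fun h => by
      rw [h3, Fin.ext h] at h2
      exact lt_irrefl _ h2
    refine h a' b' c' d' ?_ ?_ ?_ ⟨h1, h2, h3⟩
    · show (a' : ℕ) < b'
      omega
    · show (b' : ℕ) < c'
      omega
    · show (c' : ℕ) < d'
      omega

theorem le_rb {n : ℕ} {w : Fin n → ℕ} (h : IsRGF w) (i : Fin n) : w i ≤ rb w + 1 := by
  have hn : 0 < n := lt_of_le_of_lt (Nat.zero_le _) i.is_lt
  have h0 : w ⟨0, hn⟩ = 1 := h.2.1 _ rfl
  have h1 : (Icc 2 (w i)).card ≤ rbAt w ⟨0, hn⟩ := by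
    unfold rbAt
    apply card_le_card
    intro x hx
    rw [mem_Icc] at hx
    obtain ⟨j, hj, hjx⟩ := exists_letter h i x (by omega) hx.2
    rw [mem_image]
    refine ⟨j, ?_, hjx⟩
    rw [mem_filter, h0, hjx]
    refine ⟨mem_univ _, ?_, by omega⟩
    show 0 < (j : ℕ)
    by_contra h2
    have h3 := h.2.1 j (by omega)
    omega
  have h2 : rbAt w ⟨0, hn⟩ ≤ rb w :=
    single_le_sum (f := fun j => rbAt w j) (fun _ _ => Nat.zero_le _) (mem_univ _)
  rw [Nat.card_Icc] at h1
  omega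

theorem last_two {m k : ℕ} {w : Fin (m + 2) → ℕ} (h : IsRGF w) (hav : Avoids1221 w)
    (hk : rb w = k) (hm : (k + 1) * (k + 2) < m + 2) :
    w (Fin.last (m + 1)) = w (Fin.last m).castSucc := by
  have hb : ∀ i ∈ (univ : Finset (Fin (m + 2))), w i ∈ Icc 1 (k + 1) := by
    intro i _
    rw [mem_Icc]
    have := le_rb h i
    exact ⟨h.1 i, by omega⟩
  obtain ⟨y, _, hy⟩ := exists_lt_card_fiber_of_mul_lt_card_of_maps_to hb
    (n := k + 2) (by
      rw [Nat.card_Icc, card_univ, Fintype.card_fin]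
      simpa using hm)
  obtain ⟨S, hS⟩ : ∃ S, S = univ.filter (fun i : Fin (m + 2) => w i = y) := ⟨_, rfl⟩
  rw [← hS] at hy
  have hB : (S.filter (fun i => ∃ j, i < j ∧ y < w j)).card ≤ k := by
    rw [← hk]
    unfold rb
    rw [card_eq_sum_ones]
    calc ∑ i ∈ S.filter (fun i => ∃ j, i < j ∧ y < w j), 1
        ≤ ∑ i ∈ S.filter (fun i => ∃ j, i < j ∧ y < w j), rbAt w i := by
          apply sum_le_sum
          intro i hi
          rw [mem_filter, hS, mem_filter] at hi
          obtain ⟨⟨_, hiy⟩, j, hij, hj⟩ := hi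
          unfold rbAt
          rw [Nat.one_le_iff_ne_zero, ← Nat.pos_iff_ne_zero, card_pos]
          refine ⟨w j, ?_⟩
          rw [mem_image]
          exact ⟨j, by rw [mem_filter, hiy]; exact ⟨mem_univ _, hij, hj⟩, rfl⟩
      _ ≤ ∑ i, rbAt w i := sum_le_sum_of_subset (subset_univ _)
  have hC : 2 < (S.filter (fun i => ¬ ∃ j, i < j ∧ y < w j)).card := by
    have := card_filter_add_card_filter_not (s := S) (fun i => ∃ j, i < j ∧ y < w j)
    omega
  have key : ∀ p q r : Fin (m + 2), p < q → q < r →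
      p ∈ S.filter (fun i => ¬ ∃ j, i < j ∧ y < w j) →
      q ∈ S.filter (fun i => ¬ ∃ j, i < j ∧ y < w j) →
      w (Fin.last (m + 1)) = w (Fin.last m).castSucc := by
    intro p q r hpq hqr hp hq
    rw [mem_filter, hS, mem_filter] at hp hq
    have hall : ∀ i, q ≤ i → w i = y := by
      intro i hi
      rcases eq_or_lt_of_le hi with h1 | h1
      · rw [← h1]
        exact hq.1.2
      · have h2 : ¬ y < w i := fun h' => hq.2 ⟨i, h1, h'⟩
        by_contra h3
        have h4 : w i < y := by omega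
        obtain ⟨a, ha, hai⟩ := exists_letter h p (w i) (h.1 i) (by rw [hp.1.2]; omega)
        have h5 : a < p := by
          apply lt_of_le_of_ne ha
          rintro rfl
          rw [hp.1.2] at hai
          omega
        exact hav a p q i h5 hpq h1 ⟨hai, by rw [hp.1.2]; omega, by rw [hp.1.2, hq.1.2]⟩
    have h1 : (q : ℕ) < r := hqr
    have h2 := r.is_lt
    rw [hall _ (Fin.le_last q), hall]
    show (q : ℕ) ≤ m
    omega
  rw [two_lt_card] at hC
  obtain ⟨a, ha, b, hb', c, hc, hab, hac, hbc⟩ := hC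
  rcases lt_or_gt_of_ne hab with h1 | h1 <;> rcases lt_or_gt_of_ne hac with h2 | h2 <;>
    rcases lt_or_gt_of_ne hbc with h3 | h3
  · exact key a b c h1 h3 ha hb'
  · exact key a c b h2 h3 ha hc
  · exact absurd (h1.trans h3) (not_lt.mpr h2.le)
  · exact key c a b h2 h1 hc ha
  · exact key b a c h1 h2 hb' ha
  · exact absurd (h2.trans h3) (not_lt.mpr h1.le)
  · exact key b c a h3 h2 hb' hc
  · exact key c b a h3 h1 hc hb'

theorem step {m k : ℕ} (hm : (k + 1) * (k + 2) < m + 2) :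
    (RB (m + 2)).coeff k = (RB (m + 1)).coeff k := by
  rw [coeff_RB, coeff_RB]
  symm
  apply card_bij (fun w _ => dup w)
  · intro w hw
    rw [mem_filter, Set.Finite.mem_toFinset] at hw ⊢
    obtain ⟨⟨h1, h2⟩, h3⟩ := hw
    exact ⟨⟨(isRGF_dup w).mpr h1, (avoids_dup w).mpr h2⟩, by rw [rb_dup]; exact h3⟩
  · intro w _ w' _ h
    funext i
    rw [← dup_castSucc w i, h, dup_castSucc]
  · intro w hw
    rw [mem_filter, Set.Finite.mem_toFinset] at hw
    obtain ⟨⟨h1, h2⟩, h3⟩ := hw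
    have h4 := last_two h1 h2 h3 hm
    have h5 : dup (fun i : Fin (m + 1) => w i.castSucc) = w := by
      funext i
      refine Fin.lastCases ?_ (fun i => ?_) i
      · rw [dup_last]
        exact h4.symm
      · rw [dup_castSucc]
    refine ⟨fun i => w i.castSucc, ?_, h5⟩
    rw [mem_filter, Set.Finite.mem_toFinset, ← rb_dup, h5]
    refine ⟨⟨?_, ?_⟩, h3⟩
    · rw [← isRGF_dup, h5]
      exact h1
    · rw [← avoids_dup, h5]
      exact h2

/-- Every coefficient of `RB_n(1221)` is eventually constant in `n`. -/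
theorem result : ∀ k : ℕ, ∃ N : ℕ, ∀ n, N ≤ n → (RB n).coeff k = (RB N).coeff k := by
  intro k
  refine ⟨(k + 1) * (k + 2), fun n hn => ?_⟩
  induction n, hn using Nat.le_induction with
  | base => rfl
  | succ n hn ih =>
    rw [← ih]
    obtain ⟨m, rfl⟩ : ∃ m, n = m + 1 := ⟨n - 1, by
      have : 0 < (k + 1) * (k + 2) := by positivity
      omega⟩
    exact step (by omega)

end Pool.Agent.Results.MP_3ac9ea_co.Stabilizes
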